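import Mathlib

/-!
MP_8b97a7_co: one edge per component of a finite graph, avoiding a small set `B`.
-/

namespace Pool.Agent.Helper18.RM

open Finset

theorem exists_rep {V : Type*} (L : SimpleGraph V) :
    ∃ rep : V → V, (∀ v, L.Reachable v (rep v)) ∧ (∀ v w, L.Reachable v w → rep v = rep w) := by
  classical
  refine ⟨fun v => (L.connectedComponentMk v).out, ?_, ?_⟩
  · intro v
    have h : L.connectedComponentMk ((L.connectedComponentMk v).out) = L.connectedComponentMk v :=
      Quot.out_eq _
    exact (SimpleGraph.ConnectedComponent.exact h).symm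
  · intro v w h
    show (L.connectedComponentMk v).out = (L.connectedComponentMk w).out
    rw [SimpleGraph.ConnectedComponent.sound h]

theorem exists_closer {V : Type*} (L : SimpleGraph V) (v r : V) (hne : r ≠ v)
    (h : L.Reachable v r) : ∃ w, L.Adj v w ∧ L.dist w r < L.dist v r := by
  obtain ⟨p, hp⟩ := h.exists_walk_length_eq_dist
  cases p with
  | nil => exact absurd rfl hne
  | cons hadj q =>
    refine ⟨_, hadj, ?_⟩
    have h1 := SimpleGraph.dist_le q
    rw [SimpleGraph.Walk.length_cons] at hp
    omega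

theorem card_le_edges_add_reps {V : Type*} [Fintype V] [DecidableEq V] (L : SimpleGraph V)
    [DecidableRel L.Adj] (rep : V → V) (h1 : ∀ v, L.Reachable v (rep v))
    (h2 : ∀ v w, L.Reachable v w → rep v = rep w) :
    Fintype.card V ≤ L.edgeFinset.card + (univ.filter (fun v => rep v = v)).card := by
  have key : ∀ v, rep v ≠ v → ∃ w, L.Adj v w ∧ L.dist w (rep v) < L.dist v (rep v) :=
    fun v hv => exists_closer L v (rep v) hv (h1 v)
  choose! nxt hn using key
  have hcard : (univ.filter (fun v => ¬ rep v = v)).card ≤ L.edgeFinset.card := by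
    apply Finset.card_le_card_of_injOn (fun v => s(v, nxt v))
    · intro v hv
      have hv' : rep v ≠ v := by simpa using hv
      simpa using (hn v hv').1
    · intro v hv v' hv' he
      have hv1 : rep v ≠ v := by simpa using hv
      have hv1' : rep v' ≠ v' := by simpa using hv'
      have he' : s(v, nxt v) = s(v', nxt v') := he
      rw [Sym2.eq_iff] at he'
      rcases he' with ⟨h, _⟩ | ⟨ha, hb⟩
      · exact h
      · exfalso
        have e1 := (hn v hv1).2
        have e2 := (hn v' hv1').2
        have e3 : rep v = rep v' := by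
          apply h2
          have := (hn v hv1).1
          rw [hb] at this
          exact this.reachable
        rw [hb, e3] at e1
        rw [← ha] at e2
        omega
  have hsum := Finset.card_filter_add_card_filter_not (s := (univ : Finset V)) (fun v => rep v = v)
  rw [Finset.card_univ] at hsum
  omega

/-- One edge per component, avoiding the components that meet `B`. -/
theorem link_choice {V : Type*} [Fintype V] [DecidableEq V] (L : SimpleGraph V)
    [DecidableRel L.Adj] (B : Finset V) (hB : ∀ v, v ∉ B → ∃ w, L.Adj v w) (m : ℕ)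
    (hm : m + L.edgeFinset.card + B.card ≤ Fintype.card V) :
    ∃ (O : Finset V) (mu : V → V), O.card = 2 * m ∧ (∀ v ∈ O, mu v ∈ O) ∧
      (∀ v ∈ O, mu (mu v) = v) ∧ (∀ v ∈ O, L.Adj v (mu v)) ∧ (∀ v ∈ O, v ∉ B) ∧
      (∀ v ∈ O, ∀ w, L.Adj v w → w ∉ B) ∧ (∀ v ∈ O, ∀ w ∈ O, L.Adj v w → w = mu v) := by
  obtain ⟨rep, h1, h2⟩ := exists_rep L
  have hc := card_le_edges_add_reps L rep h1 h2
  have hrr : ∀ v, rep (rep v) = rep v := fun v => (h2 _ _ (h1 v)).symm
  have hle : m ≤ ((univ.filter (fun v => rep v = v)) \ B.image rep).card := by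
    have e1 := Finset.le_card_sdiff (B.image rep) (univ.filter (fun v => rep v = v))
    have e2 : (B.image rep).card ≤ B.card := Finset.card_image_le
    omega
  obtain ⟨S, hS, hSm⟩ := Finset.exists_subset_card_eq hle
  have hSrep : ∀ r ∈ S, rep r = r := by
    intro r hr
    have := hS hr
    simp only [mem_sdiff, mem_filter, mem_univ, true_and] at this
    exact this.1
  have hSB : ∀ v, rep v ∈ S → v ∉ B := by
    intro v hv hvB
    have := hS hv
    rw [mem_sdiff] at this
    exact this.2 (mem_image_of_mem rep hvB)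
  have hz : ∀ r, r ∈ S → ∃ w, L.Adj r w := by
    intro r hr
    exact hB r (hSB r (by rw [hSrep r hr]; exact hr))
  choose! z hz using hz
  have hzrep : ∀ r ∈ S, rep (z r) = r := by
    intro r hr
    rw [← h2 _ _ (hz r hr).reachable, hSrep r hr]
  have hzS : ∀ r ∈ S, z r ∉ S := by
    intro r hr hzr
    have e1 := hzrep r hr
    rw [hSrep _ hzr] at e1
    have := hz r hr
    rw [e1] at this
    exact L.loopless.irrefl _ this
  let mu : V → V := fun v => if v ∈ S then z v else rep v
  have hO : ∀ v, v ∈ S ∪ S.image z ↔ v ∈ S ∨ ∃ r ∈ S, z r = v := by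
    intro v
    simp
  have hOrep : ∀ v, v ∈ S ∪ S.image z → rep v ∈ S := by
    intro v hv
    rcases (hO v).1 hv with h | ⟨r, hr, rfl⟩
    · rw [hSrep v h]; exact h
    · rw [hzrep r hr]; exact hr
  have hmuS : ∀ v ∈ S, mu v = z v := fun v hv => by simp [mu, hv]
  have hmuz : ∀ r ∈ S, mu (z r) = r := fun r hr => by simp [mu, hzS r hr, hzrep r hr]
  refine ⟨S ∪ S.image z, mu, ?_, ?_, ?_, ?_, ?_, ?_, ?_⟩
  · rw [Finset.card_union_of_disjoint, Finset.card_image_of_injOn, hSm]
    · ring
    · intro r hr r' hr' he
      have he' : z r = z r' := he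
      rw [← hzrep r hr, ← hzrep r' hr', he']
    · rw [Finset.disjoint_left]
      intro v hv hv'
      obtain ⟨r, hr, rfl⟩ := mem_image.1 hv'
      exact hzS r hr hv
  · intro v hv
    rw [hO]
    rcases (hO v).1 hv with h | ⟨r, hr, rfl⟩
    · right
      exact ⟨v, h, (hmuS v h).symm⟩
    · left
      rw [hmuz r hr]
      exact hr
  · intro v hv
    rcases (hO v).1 hv with h | ⟨r, hr, rfl⟩
    · rw [hmuS v h, hmuz v h]
    · rw [hmuz r hr, hmuS r hr]
  · intro v hv
    rcases (hO v).1 hv with h | ⟨r, hr, rfl⟩
    · rw [hmuS v h]; exact hz v h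
    · rw [hmuz r hr]; exact (hz r hr).symm
  · intro v hv
    exact hSB v (hOrep v hv)
  · intro v hv w hw
    apply hSB w
    rw [← h2 _ _ hw.reachable]
    exact hOrep v hv
  · intro v hv w hw ha
    have e := h2 _ _ ha.reachable
    rcases (hO v).1 hv with h | ⟨r, hr, rfl⟩
    · rw [hmuS v h]
      rcases (hO w).1 hw with h' | ⟨r', hr', rfl⟩
      · exfalso
        rw [hSrep v h, hSrep w h'] at e
        rw [e] at ha
        exact L.loopless.irrefl _ ha
      · rw [hzrep r' hr', hSrep v h] at e
        rw [e]
    · rw [hmuz r hr]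
      rcases (hO w).1 hw with h' | ⟨r', hr', rfl⟩
      · rw [hzrep r hr, hSrep w h'] at e
        exact e.symm
      · exfalso
        rw [hzrep r' hr', hzrep r hr] at e
        rw [e] at ha
        exact L.loopless.irrefl _ ha

end Pool.Agent.Helper18.RM
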