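import Mathlib
import Pool.Agent.Helper8.RM.Defs

/-!
MP_8b97a7_co: the graph form of a regular maximal `(2,3)`-antichain, and existence.
-/

namespace Pool.Agent.Helper18.RM

open Finset Pool.Agent.Helper8.RM

variable {n : ℕ}

/-- The graph of the pairs which are not members of `A`. -/
def coG (A : Finset (Finset (Fin n))) : SimpleGraph (Fin n) where
  Adj x y := x ≠ y ∧ ({x, y} : Finset (Fin n)) ∉ A
  symm := ⟨fun x y h => ⟨h.1.symm, by rw [Finset.pair_comm]; exact h.2⟩⟩
  loopless := ⟨fun _ h => h.1 rfl⟩

instance (A : Finset (Finset (Fin n))) : DecidableRel (coG A).Adj :=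
  fun x y => inferInstanceAs (Decidable (x ≠ y ∧ ({x, y} : Finset (Fin n)) ∉ A))

theorem coG_adj (A : Finset (Finset (Fin n))) (x y : Fin n) :
    (coG A).Adj x y ↔ x ≠ y ∧ ({x, y} : Finset (Fin n)) ∉ A := Iff.rfl

theorem clique_of_mem {A : Finset (Finset (Fin n))} (hA : IsMax23 n A) (S : Finset (Fin n))
    (hS : S ∈ A) (h3 : S.card = 3) : (coG A).IsNClique 3 S := by
  refine ⟨?_, h3⟩
  intro x hx y hy hxy
  refine ⟨hxy, ?_⟩
  intro hp
  have hc : ({x, y} : Finset (Fin n)).card = 2 := Finset.card_pair hxy
  refine hA.2.1 _ hp S hS ?_ ?_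
  · intro he
    rw [he, h3] at hc
    omega
  · intro z hz
    rw [mem_insert, mem_singleton] at hz
    rcases hz with rfl | rfl
    · exact hx
    · exact hy

theorem clique_iff {A : Finset (Finset (Fin n))} (hA : IsMax23 n A) (S : Finset (Fin n)) :
    (coG A).IsNClique 3 S ↔ S ∈ A ∧ S.card = 3 := by
  constructor
  · intro h
    refine ⟨?_, h.card_eq⟩
    by_contra hSA
    obtain ⟨T, hT, hST⟩ := hA.2.2 S hSA
    have hTS : T ≠ S := by
      rintro rfl
      exact hSA hT
    rcases hST with h1 | h1
    · have hc := Finset.card_le_card h1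
      rw [h.card_eq] at hc
      rcases hA.1 T hT with h2 | h2
      · omega
      · exact hTS (Finset.eq_of_subset_of_card_le h1 (by rw [h2, h.card_eq])).symm
    · rcases hA.1 T hT with h2 | h2
      · obtain ⟨x, y, hxy, rfl⟩ := Finset.card_eq_two.1 h2
        have hx : x ∈ S := h1 (mem_insert_self _ _)
        have hy : y ∈ S := h1 (mem_insert_of_mem (mem_singleton_self _))
        exact (h.isClique hx hy hxy).2 hT
      · exact hTS (Finset.eq_of_subset_of_card_le h1 (by rw [h2, h.card_eq]))
  · rintro ⟨h1, h2⟩
    exact clique_of_mem hA S h1 h2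

theorem card_pairs (A : Finset (Finset (Fin n))) (x : Fin n) :
    ((A.filter (fun S => x ∈ S)).filter (fun S => S.card = 2)).card + (coG A).degree x = n - 1 := by
  classical
  have h1 : ((A.filter (fun S => x ∈ S)).filter (fun S => S.card = 2)).card =
      ((univ.erase x).filter (fun y => ({x, y} : Finset (Fin n)) ∈ A)).card := by
    symm
    apply Finset.card_bij (fun y _ => ({x, y} : Finset (Fin n)))
    · intro y hy
      simp only [mem_filter, mem_erase, mem_univ, and_true] at hy
      simp only [mem_filter]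
      exact ⟨⟨hy.2, mem_insert_self _ _⟩, Finset.card_pair (Ne.symm hy.1)⟩
    · intro y hy y' hy' h
      simp only [mem_filter, mem_erase, mem_univ, and_true] at hy hy'
      have : y ∈ ({x, y'} : Finset (Fin n)) := by
        rw [← h]
        exact mem_insert_of_mem (mem_singleton_self _)
      rw [mem_insert, mem_singleton] at this
      rcases this with h' | h'
      · exact absurd h' hy.1
      · exact h'
    · intro S hS
      simp only [mem_filter] at hS
      obtain ⟨a, b, hab, rfl⟩ := Finset.card_eq_two.1 hS.2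
      have hx := hS.1.2
      rw [mem_insert, mem_singleton] at hx
      rcases hx with rfl | rfl
      · refine ⟨b, ?_, rfl⟩
        simp only [mem_filter, mem_erase, mem_univ, and_true]
        exact ⟨Ne.symm hab, hS.1.1⟩
      · refine ⟨a, ?_, Finset.pair_comm _ _⟩
        simp only [mem_filter, mem_erase, mem_univ, and_true]
        rw [Finset.pair_comm]
        exact ⟨hab, hS.1.1⟩
  have h2 : (coG A).degree x =
      ((univ.erase x).filter (fun y => ¬ ({x, y} : Finset (Fin n)) ∈ A)).card := by
    rw [← SimpleGraph.card_neighborFinset_eq_degree]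
    congr 1
    ext y
    rw [SimpleGraph.mem_neighborFinset, coG_adj]
    simp only [mem_filter, mem_erase, mem_univ, and_true]
    constructor
    · rintro ⟨a, b⟩
      exact ⟨Ne.symm a, b⟩
    · rintro ⟨a, b⟩
      exact ⟨Ne.symm a, b⟩
  rw [h1, h2, Finset.card_filter_add_card_filter_not, Finset.card_erase_of_mem (mem_univ _),
    Finset.card_univ, Fintype.card_fin]

theorem graphForm_of_antichain {A : Finset (Finset (Fin n))} (hA : IsMax23 n A) {r : ℕ}
    (hr : IsReg n A r) : GraphForm n ((n : ℤ) - 1 - r) (coG A) := by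
  classical
  constructor
  · intro x y hxy
    obtain ⟨hne, hnot⟩ := hxy
    obtain ⟨S, hS, h⟩ := hA.2.2 _ hnot
    have hc : ({x, y} : Finset (Fin n)).card = 2 := Finset.card_pair hne
    have hSne : S ≠ {x, y} := by
      rintro rfl
      exact hnot hS
    rcases h with h | h
    · have hS3 : S.card = 3 := by
        rcases hA.1 S hS with h2 | h2
        · exact absurd (Finset.eq_of_subset_of_card_le h (by rw [h2, hc])).symm hSne
        · exact h2
      have hcl := clique_of_mem hA S hS hS3
      have hx : x ∈ S := h (mem_insert_self _ _)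
      have hy : y ∈ S := h (mem_insert_of_mem (mem_singleton_self _))
      have : (S \ {x, y}).Nonempty := by
        rw [← Finset.card_pos, Finset.card_sdiff_of_subset h]
        omega
      obtain ⟨z, hz⟩ := this
      rw [mem_sdiff, mem_insert, mem_singleton, not_or] at hz
      exact ⟨z, hcl.isClique hx hz.1 (Ne.symm hz.2.1), hcl.isClique hy hz.1 (Ne.symm hz.2.2)⟩
    · exfalso
      apply hSne
      apply Finset.eq_of_subset_of_card_le h
      rw [hc]
      rcases hA.1 S hS with h2 | h2 <;> omega
  · intro x
    have h1 := card_pairs A x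
    have h2 : ((coG A).cliqueFinset 3).filter (fun t => x ∈ t) =
        (A.filter (fun S => x ∈ S)).filter (fun S => ¬ S.card = 2) := by
      ext t
      simp only [mem_filter, SimpleGraph.mem_cliqueFinset_iff]
      rw [clique_iff hA]
      constructor
      · rintro ⟨⟨a, b⟩, c⟩
        exact ⟨⟨a, c⟩, by omega⟩
      · rintro ⟨⟨a, b⟩, c⟩
        refine ⟨⟨a, ?_⟩, b⟩
        rcases hA.1 t a with h | h
        · exact absurd h c
        · exact h
    have h3 := Finset.card_filter_add_card_filter_not (s := A.filter (fun S => x ∈ S))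
      (fun S => S.card = 2)
    have h4 := hr x
    have hn : 0 < n := Fin.pos x
    rw [h2]
    omega

theorem exists_graphForm {A : Finset (Finset (Fin n))} (hA : IsMax23 n A) {r : ℕ}
    (hr : IsReg n A r) : ∃ G : SimpleGraph (Fin n), ∃ _ : DecidableRel G.Adj,
      GraphForm n ((n : ℤ) - 1 - r) G :=
  ⟨coG A, inferInstance, graphForm_of_antichain hA hr⟩

/-- All pairs form a regular maximal `(2,3)`-antichain. -/
theorem allPairs (hn : 3 ≤ n) : IsMax23 n ((univ : Finset (Fin n)).powersetCard 2) ∧
    IsReg n ((univ : Finset (Fin n)).powersetCard 2) (n - 1) := by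
  classical
  have hmem : ∀ S : Finset (Fin n), S ∈ (univ : Finset (Fin n)).powersetCard 2 ↔ S.card = 2 := by
    intro S
    rw [mem_powersetCard]
    exact ⟨fun h => h.2, fun h => ⟨subset_univ _, h⟩⟩
  have hmax : IsMax23 n ((univ : Finset (Fin n)).powersetCard 2) := by
    refine ⟨?_, ?_, ?_⟩
    · intro S hS
      exact Or.inl ((hmem S).1 hS)
    · intro S hS T hT hne hsub
      exact hne (Finset.eq_of_subset_of_card_le hsub (by rw [(hmem S).1 hS, (hmem T).1 hT]))
    · intro X hX
      rw [hmem] at hX
      rcases lt_or_ge X.card 2 with h | h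
      · obtain ⟨S, hXS, hS⟩ := Finset.exists_superset_card_eq (s := X) (n := 2) (by omega)
          (by rw [Fintype.card_fin]; omega)
        exact ⟨S, (hmem S).2 hS, Or.inl hXS⟩
      · obtain ⟨S, hXS, hS⟩ := Finset.exists_subset_card_eq (s := X) (n := 2) h
        exact ⟨S, (hmem S).2 hS, Or.inr hXS⟩
  refine ⟨hmax, ?_⟩
  intro x
  have h1 := card_pairs ((univ : Finset (Fin n)).powersetCard 2) x
  have h2 : (coG ((univ : Finset (Fin n)).powersetCard 2)).degree x = 0 := by
    rw [← SimpleGraph.card_neighborFinset_eq_degree, Finset.card_eq_zero,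
      Finset.eq_empty_iff_forall_notMem]
    intro y hy
    rw [SimpleGraph.mem_neighborFinset, coG_adj, hmem] at hy
    exact hy.2 (Finset.card_pair hy.1)
  rw [h2, add_zero] at h1
  rw [← h1]
  congr 1
  ext S
  simp only [mem_filter, hmem]
  tauto

/-- The least regularity is attained. -/
theorem rmin_mem (hn : 3 ≤ n) :
    ∃ A : Finset (Finset (Fin n)), IsMax23 n A ∧ IsReg n A (rmin n) := by
  have hne : {r : ℕ | ∃ A : Finset (Finset (Fin n)), IsMax23 n A ∧ IsReg n A r}.Nonempty :=
    ⟨n - 1, _, allPairs hn⟩
  exact Nat.sInf_mem hne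

end Pool.Agent.Helper18.RM
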