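import Mathlib
import Pool.Agent.Helper8.RM.Defs
import Pool.Agent.Helper18.RM.Choice

/-!
MP_8b97a7_co: link graphs and counting of triangles.
-/

namespace Pool.Agent.Helper18.RM

open Finset Pool.Agent.Helper8.RM

/-- The link of `x` in `G`, as a graph on all vertices. -/
def link {V : Type*} (G : SimpleGraph V) (x : V) : SimpleGraph V where
  Adj v w := G.Adj x v ∧ G.Adj x w ∧ G.Adj v w
  symm := ⟨fun _ _ h => ⟨h.2.1, h.1, h.2.2.symm⟩⟩
  loopless := ⟨fun _ h => G.loopless.irrefl _ h.2.2⟩

instance {V : Type*} (G : SimpleGraph V) [DecidableRel G.Adj] (x : V) :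
    DecidableRel (link G x).Adj :=
  fun v w => inferInstanceAs (Decidable (G.Adj x v ∧ G.Adj x w ∧ G.Adj v w))

theorem card_link_le {V : Type*} [Fintype V] [DecidableEq V] (G : SimpleGraph V)
    [DecidableRel G.Adj] (x : V) :
    (link G x).edgeFinset.card ≤ ((G.cliqueFinset 3).filter (fun t => x ∈ t)).card := by
  have hx : ∀ e : Sym2 V, e ∈ (link G x).edgeFinset → x ∉ e.toFinset := by
    intro e
    induction e with
    | _ v w =>
      intro he
      rw [SimpleGraph.mem_edgeFinset, SimpleGraph.mem_edgeSet] at he
      have a1 : x ≠ v := G.ne_of_adj he.1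
      have a2 : x ≠ w := G.ne_of_adj he.2.1
      rw [Sym2.mem_toFinset, Sym2.mem_iff]
      rintro (h | h)
      · exact a1 h
      · exact a2 h
  apply Finset.card_le_card_of_injOn (fun e => insert x e.toFinset)
  · intro e
    induction e with
    | _ v w =>
      intro he
      have he' : (link G x).Adj v w := by simpa using he
      rw [Finset.mem_coe, mem_filter, SimpleGraph.mem_cliqueFinset_iff]
      refine ⟨?_, mem_insert_self _ _⟩
      show G.IsNClique 3 (insert x (s(v, w)).toFinset)
      rw [Sym2.toFinset_mk_eq, SimpleGraph.is3Clique_triple_iff]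
      exact he'
  · intro e he e' he' h
    have h' : insert x e.toFinset = insert x e'.toFinset := h
    have h1 := congrArg (fun s => s.erase x) h'
    simp only [Finset.erase_insert (hx e he), Finset.erase_insert (hx e' he')] at h1
    ext y
    rw [← Sym2.mem_toFinset, ← Sym2.mem_toFinset, h1]

theorem sum_tri {V : Type*} [Fintype V] [DecidableEq V] (G : SimpleGraph V)
    [DecidableRel G.Adj] :
    ∑ x, ((G.cliqueFinset 3).filter (fun t => x ∈ t)).card = 3 * (G.cliqueFinset 3).card := by
  simp_rw [Finset.card_filter]
  rw [Finset.sum_comm]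
  have : ∀ t ∈ G.cliqueFinset 3, ∑ x, (if x ∈ t then 1 else 0) = 3 := by
    intro t ht
    rw [SimpleGraph.mem_cliqueFinset_iff] at ht
    rw [← Finset.card_filter, Finset.filter_mem_eq_inter, Finset.univ_inter, ht.card_eq]
  rw [Finset.sum_congr rfl this, Finset.sum_const, smul_eq_mul, mul_comm]

/-- The counting step: few triangles. -/
theorem tri_le (n : ℕ) (c : ℤ) (hc : 0 ≤ c) (G : SimpleGraph (Fin n)) [DecidableRel G.Adj]
    (hG : GraphForm n c G) : 3 * (G.cliqueFinset 3).card ≤ n * n := by
  rw [← sum_tri]
  calc ∑ x, ((G.cliqueFinset 3).filter (fun t => x ∈ t)).card ≤ ∑ _x : Fin n, n := by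
        apply Finset.sum_le_sum
        intro x _
        have h1 := hG.reg x
        have h2 : G.degree x < n := by
          have := G.degree_lt_card_verts x
          simpa using this
        omega
    _ = n * n := by simp

end Pool.Agent.Helper18.RM
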