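import Mathlib
import Pool.Agent.Helper8.RM.Defs
import Pool.Agent.Helper18.RM.Link

/-!
MP_8b97a7_co: from the graph form to tight structures, by the triangle removal lemma.
-/

namespace Pool.Agent.Helper18.RM

open Finset Pool.Agent.Helper8.RM

section
variable {V : Type*} [Fintype V] [DecidableEq V]

/-- The neighbours of `x` along removed edges. -/
noncomputable def NR (G B : SimpleGraph V) (x : V) : Finset V := by
  classical
  exact univ.filter (fun v => G.Adj x v ∧ ¬ B.Adj x v)

omit [DecidableEq V] in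
theorem mem_NR (G B : SimpleGraph V) (x v : V) : v ∈ NR G B x ↔ G.Adj x v ∧ ¬ B.Adj x v := by
  classical
  simp [NR]

theorem card_NR (G B : SimpleGraph V) [DecidableRel G.Adj] [DecidableRel B.Adj] (h : B ≤ G)
    (x : V) : (NR G B x).card + B.degree x = G.degree x := by
  classical
  rw [← SimpleGraph.card_neighborFinset_eq_degree, ← SimpleGraph.card_neighborFinset_eq_degree,
    ← Finset.card_union_of_disjoint]
  · congr 1
    ext v
    rw [mem_union, mem_NR, SimpleGraph.mem_neighborFinset, SimpleGraph.mem_neighborFinset]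
    constructor
    · rintro (h' | h')
      · exact h'.1
      · exact h h'
    · intro h'
      by_cases hb : B.Adj x v
      · exact Or.inr hb
      · exact Or.inl ⟨h', hb⟩
  · rw [Finset.disjoint_left]
    intro v hv hv'
    rw [mem_NR] at hv
    rw [SimpleGraph.mem_neighborFinset] at hv'
    exact hv.2 hv'

theorem sum_NR (G B : SimpleGraph V) [DecidableRel G.Adj] [DecidableRel B.Adj] (h : B ≤ G) :
    ∑ x, (NR G B x).card + 2 * B.edgeFinset.card = 2 * G.edgeFinset.card := by
  rw [← SimpleGraph.sum_degrees_eq_twice_card_edges, ← SimpleGraph.sum_degrees_eq_twice_card_edges,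
    ← Finset.sum_add_distrib]
  exact Finset.sum_congr rfl fun x _ => card_NR G B h x

omit [DecidableEq V] in
/-- Markov: few bad vertices. -/
theorem card_bad (G B : SimpleGraph V) (D : ℝ) (Q : ℝ)
    (hQ : (∑ x, (NR G B x).card : ℝ) ≤ Q) :
    ((univ.filter (fun x => D < (NR G B x).card)).card : ℝ) * D ≤ Q := by
  calc ((univ.filter (fun x => D < (NR G B x).card)).card : ℝ) * D
      = ∑ _x ∈ univ.filter (fun x => D < (NR G B x).card), D := by
        rw [Finset.sum_const, nsmul_eq_mul]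
    _ ≤ ∑ x ∈ univ.filter (fun x => D < (NR G B x).card), ((NR G B x).card : ℝ) := by
        apply Finset.sum_le_sum
        intro x hx
        rw [mem_filter] at hx
        exact hx.2.le
    _ ≤ ∑ x, ((NR G B x).card : ℝ) := by
        apply Finset.sum_le_sum_of_subset_of_nonneg (filter_subset _ _)
        intro x _ _
        positivity
    _ ≤ Q := hQ

end

/-- The local selections assembled into a tight structure. -/
theorem tight_of_selections {V : Type} [Fintype V] [DecidableEq V] (G B : SimpleGraph V)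
    (hBG : B ≤ G) (hfree : ∀ x y z, B.Adj x y → B.Adj y z → B.Adj x z → False)
    (W : Finset V) (m : ℕ)
    (O : V → Finset V) (mu : V → V → V)
    (hcard : ∀ x ∈ W, (O x).card = 2 * m)
    (hmu : ∀ x ∈ W, ∀ v ∈ O x, mu x v ∈ O x)
    (hmumu : ∀ x ∈ W, ∀ v ∈ O x, mu x (mu x v) = v)
    (hadj : ∀ x ∈ W, ∀ v ∈ O x, (link G x).Adj v (mu x v))
    (hW : ∀ x ∈ W, ∀ v ∈ O x, v ∈ W)
    (hB : ∀ x ∈ W, ∀ v ∈ O x, B.Adj x v)
    (hav : ∀ x ∈ W, ∀ v ∈ O x, ∀ w, (link G x).Adj v w → B.Adj x w)
    (huni : ∀ x ∈ W, ∀ v ∈ O x, ∀ w ∈ O x, (link G x).Adj v w → w = mu x v) :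
    Nonempty (Tight W m) := by
  classical
  have hmuR : ∀ x ∈ W, ∀ v ∈ O x, ¬ B.Adj v (mu x v) := by
    intro x hx v hv hb
    exact hfree x v (mu x v) (hB x hx v hv) hb (hB x hx _ (hmu x hx v hv))
  have hmemO : ∀ (x v : W), v ∈ (O x).subtype (fun v => v ∈ W) ↔ (v : V) ∈ O x := by
    intro x v
    rw [Finset.mem_subtype]
  have hanti : ∀ x ∈ W, ∀ v ∈ W, v ∈ O x → x ∉ O v := by
    intro x hx v hv hvx hxv
    have h1 := hadj v hv x hxv
    have h2 := hmuR v hv x hxv
    apply h2
    exact hav x hx v hvx (mu v x) ⟨hBG (hB x hx v hvx), h1.2.2, h1.2.1⟩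
  have hG' : ∀ x ∈ W, ∀ v ∈ W, (v ∈ O x ∨ x ∈ O v) → B.Adj x v := by
    intro x hx v hv h
    rcases h with h | h
    · exact hB x hx v h
    · exact (hB v hv x h).symm
  refine ⟨{
    O := fun x => (O x).subtype (fun v => v ∈ W)
    mu := fun x v => if h : mu x v ∈ W then ⟨mu x v, h⟩ else v
    card_O := ?_
    mu_mem := ?_
    mu_ne := ?_
    mu_mu := ?_
    antisymm := ?_
    triangle_free := ?_
    key := ?_ }⟩
  · intro x
    rw [Finset.card_subtype, Finset.filter_true_of_mem (fun v hv => hW x x.2 v hv)]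
    exact hcard x x.2
  · intro x v hv
    rw [hmemO] at hv ⊢
    have h1 := hmu x x.2 v hv
    rw [dif_pos (hW x x.2 _ h1)]
    exact h1
  · intro x v hv
    rw [hmemO] at hv
    have h1 := hmu x x.2 v hv
    rw [dif_pos (hW x x.2 _ h1)]
    intro h
    have h2 := congrArg Subtype.val h
    have h3 := (hadj x x.2 v hv).2.2
    exact G.ne_of_adj h3 h2.symm
  · intro x v hv
    rw [hmemO] at hv
    have h1 := hmu x x.2 v hv
    have h2 := hW x x.2 _ h1
    have h3 := hmumu x x.2 v hv
    simp only [h2, dif_pos]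
    rw [dif_pos (by rw [h3]; exact v.2)]
    exact Subtype.ext h3
  · intro x v hv
    rw [hmemO] at hv ⊢
    exact hanti x x.2 v v.2 hv
  · intro x y z hxy hyz hxz
    simp only [hmemO] at hxy hyz hxz
    exact hfree x y z (hG' x x.2 y y.2 hxy) (hG' y y.2 z z.2 hyz) (hG' x x.2 z z.2 hxz)
  · intro y v x hv hvx hzx
    have hv' : (v : V) ∈ O y := (hmemO y v).1 hv
    have h1 := hmu y y.2 v hv'
    have h2 := hW y y.2 _ h1
    rw [dif_pos h2] at hzx ⊢
    simp only [Finset.mem_subtype] at hvx hzx ⊢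
    have hvz : G.Adj v (mu y v) := (hadj y y.2 v hv').2.2
    have hvzR : ¬ B.Adj v (mu y v) := hmuR y y.2 v hv'
    have gxv : G.Adj x v := hBG (hG' x x.2 v v.2 hvx)
    have gxz : G.Adj x (mu y v) := hBG (hG' x x.2 _ h2 hzx)
    have hvx' : (v : V) ∈ O x := by
      rcases hvx with h | h
      · exact h
      · exfalso
        apply hvzR
        exact hav v v.2 x h (mu y v) ⟨gxv.symm, hvz, gxz⟩
    have hzx' : mu y v ∈ O x := by
      rcases hzx with h | h
      · exact h
      · exfalso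
        apply hvzR
        exact (hav (mu y v) h2 x h v ⟨gxz.symm, hvz.symm, gxv⟩).symm
    refine ⟨hvx', ?_⟩
    have he : mu y v = mu x v := huni x x.2 v hvx' _ hzx' ⟨gxv, gxz, hvz⟩
    rw [dif_pos (by rw [← he]; exact h2)]
    exact Subtype.ext he.symm

theorem tight_of_graphForm (eps : ℝ) (heps : 0 < eps) : ∃ N0 : ℕ, ∀ n ≥ N0, ∀ c : ℤ,
    eps * n ≤ c → ∀ (G : SimpleGraph (Fin n)) [DecidableRel G.Adj], GraphForm n c G →
    ∃ (W : Finset (Fin n)) (m : ℕ), W.Nonempty ∧ (c : ℝ) - eps * n ≤ m ∧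
      Nonempty (Tight W m) := by
  have hη : 0 < eps ^ 2 / 18 := by positivity
  have hτ : 0 < SimpleGraph.triangleRemovalBound (eps ^ 2 / 18) :=
    SimpleGraph.triangleRemovalBound_pos hη
  obtain ⟨N0, hN0⟩ := exists_nat_gt (1 / SimpleGraph.triangleRemovalBound (eps ^ 2 / 18))
  refine ⟨N0 + 1, ?_⟩
  intro n hn c hc G _ hG
  classical
  have hn1 : 1 ≤ n := by omega
  have hnR : (1 : ℝ) ≤ n := by exact_mod_cast hn1
  have hnpos : (0 : ℝ) < n := by linarith
  have hc0R : (0 : ℝ) ≤ c := by
    have : 0 ≤ eps * n := by positivity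
    linarith
  have hc0 : 0 ≤ c := by exact_mod_cast hc0R
  -- eps < 1
  have heps1 : eps < 1 := by
    let x0 : Fin n := ⟨0, hn1⟩
    have h1 := hG.reg x0
    have h2 : G.degree x0 < n := by
      have := G.degree_lt_card_verts x0
      simpa using this
    have h3 : c < n := by omega
    have h3R : (c : ℝ) < n := by exact_mod_cast h3
    have h4 : eps * n < 1 * n := by linarith
    exact lt_of_mul_lt_mul_right h4 hnpos.le
  -- triangle removal
  have ht := tri_le n c hc0 G hG
  have htR : (3 : ℝ) * (G.cliqueFinset 3).card ≤ n * n := by exact_mod_cast ht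
  have hlt : ((G.cliqueFinset 3).card : ℝ) <
      SimpleGraph.triangleRemovalBound (eps ^ 2 / 18) * Fintype.card (Fin n) ^ 3 := by
    rw [Fintype.card_fin]
    have h1 : (1 : ℝ) < SimpleGraph.triangleRemovalBound (eps ^ 2 / 18) * n := by
      have h2 : (1 / SimpleGraph.triangleRemovalBound (eps ^ 2 / 18)) < n := by
        refine hN0.trans_le ?_
        exact_mod_cast (by omega : N0 ≤ n)
      rw [div_lt_iff₀ hτ] at h2
      linarith
    have h3 : (0 : ℝ) < n * n := by positivity
    nlinarith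
  obtain ⟨B, hBG, hBdec, hBe, hBfree⟩ := SimpleGraph.triangle_removal hlt
  have hsum := sum_NR G B hBG
  have hsumR : (∑ x, (NR G B x).card : ℝ) ≤ 2 * (eps ^ 2 / 18) * (n : ℝ) ^ 2 := by
    have h1 : ((∑ x, (NR G B x).card : ℕ) : ℝ) + 2 * B.edgeFinset.card = 2 * G.edgeFinset.card := by
      exact_mod_cast hsum
    rw [Fintype.card_fin] at hBe
    push_cast at h1 hBe
    linarith
  -- bad vertices
  have hδ : 0 < eps / 3 * n := by positivity
  have hbad := card_bad G B (eps / 3 * n) _ hsumR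
  let bad : Finset (Fin n) := univ.filter (fun x => eps / 3 * n < (NR G B x).card)
  have hbad' : (bad.card : ℝ) ≤ eps / 3 * n := by
    have h1 : (bad.card : ℝ) * (eps / 3 * n) ≤ (eps / 3 * n) * (eps / 3 * n) := by
      refine hbad.trans (le_of_eq ?_)
      ring
    exact le_of_mul_le_mul_right h1 hδ
  let W : Finset (Fin n) := univ \ bad
  have hWbad : ∀ x, x ∈ W ↔ x ∉ bad := by
    intro x
    simp [W]
  -- the local choice
  let m : ℕ := ⌈(c : ℝ) - eps * n⌉₊
  have hmc : (c : ℝ) - eps * n ≤ m := Nat.le_ceil _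
  have hloc : ∀ x ∈ W, ∃ (O : Finset (Fin n)) (mu : Fin n → Fin n), O.card = 2 * m ∧
      (∀ v ∈ O, mu v ∈ O) ∧ (∀ v ∈ O, mu (mu v) = v) ∧ (∀ v ∈ O, (link G x).Adj v (mu v)) ∧
      (∀ v ∈ O, v ∈ W) ∧ (∀ v ∈ O, B.Adj x v) ∧
      (∀ v ∈ O, ∀ w, (link G x).Adj v w → B.Adj x w) ∧
      (∀ v ∈ O, ∀ w ∈ O, (link G x).Adj v w → w = mu v) := by
    intro x hx
    let Bx : Finset (Fin n) := (G.neighborFinset x)ᶜ ∪ NR G B x ∪ bad
    have hBx : ∀ v, v ∉ Bx → G.Adj x v ∧ B.Adj x v ∧ v ∈ W := by
      intro v hv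
      simp only [Bx, mem_union, not_or, mem_compl, not_not, SimpleGraph.mem_neighborFinset,
        mem_NR, not_and] at hv
      exact ⟨hv.1.1, hv.1.2 hv.1.1, (hWbad v).2 hv.2⟩
    have hnb : ∀ v, v ∉ Bx → ∃ w, (link G x).Adj v w := by
      intro v hv
      have h1 := (hBx v hv).1
      obtain ⟨z, hz1, hz2⟩ := hG.tri x v h1
      exact ⟨z, h1, hz1, hz2⟩
    have hBcard : Bx.card ≤ (n - G.degree x) + (NR G B x).card + bad.card := by
      have e1 : ((G.neighborFinset x)ᶜ).card = n - G.degree x := by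
        rw [Finset.card_compl, Fintype.card_fin, SimpleGraph.card_neighborFinset_eq_degree]
      have e2 := Finset.card_union_le ((G.neighborFinset x)ᶜ ∪ NR G B x) bad
      have e3 := Finset.card_union_le ((G.neighborFinset x)ᶜ) (NR G B x)
      have e4 : Bx.card ≤ _ := e2
      omega
    have hedge := card_link_le G x
    have hreg := hG.reg x
    have hdeg : G.degree x < n := by
      have := G.degree_lt_card_verts x
      simpa using this
    have hNR : ((NR G B x).card : ℝ) ≤ eps / 3 * n := by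
      have := (hWbad x).1 hx
      simp only [bad, mem_filter, mem_univ, true_and, not_lt] at this
      exact this
    have hmle : (m : ℤ) ≤ c - (NR G B x).card - bad.card := by
      have h1 : (c : ℝ) - eps * n ≤ ((c - (NR G B x).card - bad.card : ℤ) : ℝ) := by
        push_cast
        linarith
      have h2 : 0 ≤ c - (NR G B x).card - bad.card := by
        have : (0 : ℝ) ≤ ((c - (NR G B x).card - bad.card : ℤ) : ℝ) := by linarith
        exact_mod_cast this
      obtain ⟨q, hq⟩ := Int.eq_ofNat_of_zero_le h2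
      rw [hq] at h1 ⊢
      have h3 : m ≤ q := Nat.ceil_le.2 (by exact_mod_cast h1)
      exact_mod_cast h3
    have hm : m + (link G x).edgeFinset.card + Bx.card ≤ Fintype.card (Fin n) := by
      rw [Fintype.card_fin]
      omega
    obtain ⟨O, mu, a1, a2, a3, a4, a5, a6, a7⟩ := link_choice (link G x) Bx hnb m hm
    exact ⟨O, mu, a1, a2, a3, a4, fun v hv => (hBx v (a5 v hv)).2.2,
      fun v hv => (hBx v (a5 v hv)).2.1, fun v hv w hw => (hBx w (a6 v hv w hw)).2.1, a7⟩
  choose! O mu a1 a2 a3 a4 a5 a6 a7 a8 using hloc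
  refine ⟨W, m, ?_, hmc, ?_⟩
  · -- W is nonempty
    rw [← Finset.card_pos]
    have h1 : W.card = n - bad.card := by
      rw [Finset.card_sdiff_of_subset (subset_univ _), Finset.card_univ, Fintype.card_fin]
    have h2 : (bad.card : ℝ) < n := by
      have : eps / 3 * n < n := by nlinarith
      linarith
    have h3 : bad.card < n := by exact_mod_cast h2
    omega
  · refine tight_of_selections G B hBG ?_ W m O mu a1 a2 a3 a4 a5 a6 a7 a8
    intro x y z hxy hyz hxz
    have hcl : B.IsNClique 3 {x, y, z} := SimpleGraph.is3Clique_triple_iff.2 ⟨hxy, hxz, hyz⟩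
    exact hBfree _ hcl

end Pool.Agent.Helper18.RM
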