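import Mathlib
import Pool.Agent.Helper8.RM.Defs
import Pool.Agent.Helper18.RM.Graph
import Pool.Agent.Helper18.RM.Reduce

/-!
MP_8b97a7_co: from a regular maximal `(2,3)`-antichain to a tight structure.
-/

namespace Pool.Agent.Helper18.RM

open Finset Pool.Agent.Helper8.RM

/-- A regular maximal `(2,3)`-antichain with regularity `r ≤ n - 1 - eps n` (and `n` large) gives a
tight structure with `m ≥ n - 1 - r - eps n`. -/
theorem tight_of_antichain (eps : ℝ) (heps : 0 < eps) : ∃ N0 : ℕ, ∀ n ≥ N0,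
    ∀ (A : Finset (Finset (Fin n))) (r : ℕ), IsMax23 n A → IsReg n A r →
    eps * n ≤ (n : ℝ) - 1 - r →
    ∃ (W : Finset (Fin n)) (m : ℕ), W.Nonempty ∧ (n : ℝ) - 1 - r - eps * n ≤ m ∧
      Nonempty (Tight W m) := by
  obtain ⟨N0, hN0⟩ := tight_of_graphForm eps heps
  refine ⟨N0, ?_⟩
  intro n hn A r hA hr hc
  obtain ⟨G, hdec, hG⟩ := exists_graphForm hA hr
  have := hN0 n hn ((n : ℤ) - 1 - r) (by push_cast; exact hc) G hG
  push_cast at this
  exact this

end Pool.Agent.Helper18.RM
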